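import Pool.Agent.MP_b9875a_co.H99.Spec2

/-! Pebbles and tokens are moved into the set of a dive. -/

namespace Pool.Agent.MP_b9875a_co.H99.LN

open Finset Sum

namespace PD

variable {V α ι κ : Type} [DecidableEq V]

/-- contraction of `Al` -/
def pr (Al : Finset V) (v : V) : Option V := if v ∈ Al then none else some v

/-- tails of the auxiliary arcs -/
def atl (Al : Finset V) (tl : α → V) : α ⊕ V × ℕ → Option V
  | inl a => pr Al (tl a)
  | inr _ => none

/-- heads of the auxiliary arcs -/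
def ahd (Al : Finset V) (hd : α → V) : α ⊕ V × ℕ → Option V
  | inl a => pr Al (hd a)
  | inr x => some x.1

/-- the real start of a lane with a given first arc -/
def st (tl : α → V) : α ⊕ V × ℕ → V
  | inl a => tl a
  | inr x => x.1

/-- supply arcs -/
def sup (Y : Finset V) (c : V → ℕ) : Finset (V × ℕ) :=
  Y.biUnion fun w => (range (c w)).image fun j => (w, j)

/-- the auxiliary arcs -/
def arcs (tl hd : α → V) (D : Finset α) (Z Al : Finset V) (c : V → ℕ) : Finset (α ⊕ V × ℕ) :=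
  (D.filter fun a => tl a ∉ Al ∨ hd a ∉ Z).disjSum (sup (Z \ Al) c)

/-- the auxiliary caps -/
def ac (S Al : Finset V) (c : V → ℕ) (M : ℕ) : Option V → ℕ
  | none => M
  | some v => if v ∈ S \ Al then c v else 0

/-- the real part of a set -/
def hat (S Al : Finset V) (X : Finset (Option V)) : Finset V := (S \ Al).filter fun v => some v ∈ X

/-- large sets -/
def Lg (S Al : Finset V) (θ : ℕ) (X : Finset (Option V)) : Prop :=
  none ∈ X ∨ θ ≤ (hat S Al X).card

/-- target sets -/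
def UU (Z Al : Finset V) (x : V) : Finset (Option V) :=
  if x ∈ Z then {none, pr Al x} else {some x}

/-- number of targets missed by a set -/
def pp (Z Al : Finset V) (pos : ι → V) (T : Finset ι) (X : Finset (Option V)) : ℕ :=
  (T.filter fun t => Disjoint X (UU Z Al (pos t))).card

variable {tl hd : α → V} {D : Finset α} {S Z Al : Finset V} {c : V → ℕ} {θ : ℕ} {T : Finset ι}
  {pos : ι → V}

lemma pr_some {v x : V} (h : pr Al v = some x) : v = x := by
  unfold pr at h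
  split_ifs at h
  exact Option.some.inj h

lemma pr_none {v : V} : pr Al v = none ↔ v ∈ Al := by
  unfold pr
  split_ifs with h <;> simp [h]

lemma pr_of {v : V} (h : v ∉ Al) : pr Al v = some v := if_neg h

lemma mem_sup {Y : Finset V} {x : V × ℕ} : x ∈ sup Y c ↔ x.1 ∈ Y ∧ x.2 < c x.1 := by
  simp only [sup, mem_biUnion, mem_image, mem_range]
  constructor
  · rintro ⟨w, hw, j, hj, rfl⟩
    exact ⟨hw, hj⟩
  · exact fun h => ⟨x.1, h.1, x.2, h.2, rfl⟩

lemma card_sup (Y : Finset V) (c : V → ℕ) : (sup Y c).card = ∑ v ∈ Y, c v := by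
  unfold sup
  rw [card_biUnion]
  · refine sum_congr rfl fun v _ => ?_
    rw [card_image_of_injective _ fun j j' h => (Prod.mk.inj h).2, card_range]
  · intro v _ w _ hvw
    refine disjoint_left.2 fun x h1 h2 => hvw ?_
    obtain ⟨_, _, rfl⟩ := mem_image.1 h1
    obtain ⟨_, _, h⟩ := mem_image.1 h2
    exact (Prod.mk.inj h).1.symm

lemma inl_arcs {a : α} : inl a ∈ arcs tl hd D Z Al c ↔ a ∈ D ∧ (tl a ∉ Al ∨ hd a ∉ Z) := by
  simp [arcs]

lemma inr_arcs {x : V × ℕ} :
    inr x ∈ arcs tl hd D Z Al c ↔ (x.1 ∈ Z ∧ x.1 ∉ Al) ∧ x.2 < c x.1 := by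
  simp [arcs, mem_sup]

lemma mem_hat {X : Finset (Option V)} {v : V} :
    v ∈ hat S Al X ↔ (v ∈ S ∧ v ∉ Al) ∧ some v ∈ X := by
  simp [hat]

lemma ex_some {X : Finset (Option V)} {W : Finset V} {v : V} (hv : v ∉ Al)
    (h : ∀ a ∈ D, hd a ∉ W → pr Al (hd a) ∉ X) :
    ex tl hd D v W ≤ ex (atl Al tl) (ahd Al hd) (arcs tl hd D Z Al c) (some v) X := by
  refine card_le_card_of_injOn inl (fun a ha => ?_) fun _ _ _ _ e => inl.inj e
  simp only [coe_filter, Set.mem_setOf_eq] at ha ⊢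
  obtain ⟨h1, h2, h3⟩ := ha
  exact ⟨inl_arcs.2 ⟨h1, Or.inl (h2 ▸ hv)⟩, by rw [atl, h2, pr_of hv], h a h1 h3⟩

lemma out_hat {X : Finset (Option V)} (hD : ∀ a ∈ D, tl a ∈ S ∧ hd a ∈ S) (hn : none ∉ X) :
    ∀ a ∈ D, hd a ∉ hat S Al X → pr Al (hd a) ∉ X := fun a ha h => by
  by_cases h1 : hd a ∈ Al
  · rwa [pr_none.2 h1]
  · rw [pr_of h1]
    exact fun h2 => h (mem_hat.2 ⟨⟨(hD a ha).2, h1⟩, h2⟩)

lemma mval_ge (tl' hd' : ι → Option V) (A : Finset ι) (M : ℕ) (X : Finset (Option V)) :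
    ∑ v ∈ hat S Al X, min (c v) (ex tl' hd' A (some v) X) +
      (if none ∈ X then min M (ex tl' hd' A none X) else 0) ≤ mval (ac S Al c M) tl' hd' A X := by
  have e : ∑ v ∈ hat S Al X, min (c v) (ex tl' hd' A (some v) X) =
      ∑ x ∈ (hat S Al X).image some, min (ac S Al c M x) (ex tl' hd' A x X) := by
    rw [sum_image fun _ _ _ _ h => Option.some.inj h]
    refine sum_congr rfl fun v hv => ?_
    rw [ac, if_pos (mem_sdiff.2 (mem_hat.1 hv).1)]
  have hs : (hat S Al X).image some ⊆ X := fun x hx => by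
    obtain ⟨v, hv, rfl⟩ := mem_image.1 hx
    exact (mem_hat.1 hv).2
  rw [e]
  split_ifs with h
  · refine le_trans (le_of_eq ?_) (sum_le_sum_of_subset (insert_subset h hs))
    rw [sum_insert (by simp), add_comm, ac]
  · exact sum_le_sum_of_subset hs

lemma pp_le {X : Finset (Option V)} {W : Finset V} (hT : ∀ i ∈ T, pos i ∈ S)
    (h : ∀ x ∈ W, ¬Disjoint X (UU Z Al x)) :
    pp Z Al pos T X ≤ ∑ v ∈ S \ W, cnt T pos v := by
  unfold cnt
  rw [sum_card_fiberwise_eq_card_filter]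
  refine card_le_card fun t ht => ?_
  rw [mem_filter] at ht ⊢
  exact ⟨ht.1, mem_sdiff.2 ⟨hT t ht.1, fun h' => h _ h' ht.2⟩⟩

lemma hat_meet {X : Finset (Option V)} : ∀ x ∈ hat S Al X, ¬Disjoint X (UU Z Al x) := by
  intro x hx hd
  obtain ⟨⟨-, h1⟩, h2⟩ := mem_hat.1 hx
  refine disjoint_left.1 hd h2 ?_
  unfold UU
  split_ifs <;> simp [pr_of h1]

lemma base (hAl : Al ⊆ Z) (hZ : Z ⊆ S) (hθ : θ ≤ Z.card) (hD : ∀ a ∈ D, tl a ∈ S ∧ hd a ∈ S)
    (hT : ∀ i ∈ T, pos i ∈ S) (hA : Adm S θ (cnt T pos) c tl hd D) (X : Finset (Option V))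
    (hX : Lg S Al θ X) : pp Z Al pos T X ≤ mval (ac S Al c (arcs tl hd D Z Al c).card)
      (atl Al tl) (ahd Al hd) (arcs tl hd D Z Al c) X := by
  refine le_trans ?_ (mval_ge _ _ _ _ X)
  have hs : hat S Al X ⊆ S := fun v hv => (mem_hat.1 hv).1.1
  by_cases hn : none ∈ X
  · rw [if_pos hn, min_eq_right (show ex (atl Al tl) (ahd Al hd) (arcs tl hd D Z Al c) none X ≤
      (arcs tl hd D Z Al c).card from card_filter_le _ _)]
    set W := hat S Al X ∪ Z with hW
    have h1 := pp_le (Z := Z) (Al := Al) (X := X) (W := W) hT fun x hx => by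
      rcases mem_union.1 hx with hx | hx
      · exact hat_meet x hx
      · exact fun hd => disjoint_left.1 hd hn (by simp [UU, hx])
    have h2 := hA W (union_subset hs hZ) (hθ.trans (card_le_card subset_union_right))
    refine h1.trans (h2.trans ?_)
    have hout : ∀ a ∈ D, hd a ∉ W → pr Al (hd a) ∉ X := fun a ha h => by
      have h3 : hd a ∉ Al := fun h' => h (mem_union_right _ (hAl h'))
      rw [pr_of h3]
      exact fun h4 => h (mem_union_left _ (mem_hat.2 ⟨⟨(hD a ha).2, h3⟩, h4⟩))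
    have e : W = hat S Al X ∪ (Al ∪ (Z \ Al) \ hat S Al X) := by
      ext v
      simp only [hW, mem_union, mem_sdiff]
      have := @hAl v
      tauto
    have d1 : Disjoint (hat S Al X) (Al ∪ (Z \ Al) \ hat S Al X) := by
      refine disjoint_left.2 fun v h3 h4 => ?_
      rcases mem_union.1 h4 with h4 | h4
      · exact (mem_hat.1 h3).1.2 h4
      · exact (mem_sdiff.1 h4).2 h3
    have d2 : Disjoint Al ((Z \ Al) \ hat S Al X) :=
      disjoint_left.2 fun v h3 h4 => (mem_sdiff.1 (mem_sdiff.1 h4).1).2 h3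
    have h3 : ∑ v ∈ Al, ex tl hd D v W + ∑ v ∈ (Z \ Al) \ hat S Al X, c v ≤
        ex (atl Al tl) (ahd Al hd) (arcs tl hd D Z Al c) none X := by
      have e1 : ∑ v ∈ Al, ex tl hd D v W = (D.filter fun a => hd a ∉ W ∧ tl a ∈ Al).card := by
        rw [← filter_filter, ← sum_card_fiberwise_eq_card_filter]
        refine sum_congr rfl fun v _ => ?_
        rw [filter_filter, ex]
        exact congrArg card (filter_congr fun a _ => and_comm)
      rw [e1, ← card_sup, ← card_disjSum]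
      refine card_le_card fun b hb => ?_
      rw [mem_filter]
      rcases b with a | x
      · obtain ⟨h4, h5, h6⟩ := mem_filter.1 (inl_mem_disjSum.1 hb)
        exact ⟨inl_arcs.2 ⟨h4, Or.inr fun h => h5 (mem_union_right _ h)⟩, pr_none.2 h6,
          hout a h4 h5⟩
      · obtain ⟨h4, h5⟩ := mem_sup.1 (inr_mem_disjSum.1 hb)
        obtain ⟨h6, h7⟩ := mem_sdiff.1 h4
        rw [mem_sdiff] at h6
        exact ⟨inr_arcs.2 ⟨h6, h5⟩, rfl, fun h => h7 (mem_hat.2 ⟨⟨hZ h6.1, h6.2⟩, h⟩)⟩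
    have h4 : mval c tl hd D W = ∑ v ∈ hat S Al X, min (c v) (ex tl hd D v W) +
        (∑ v ∈ Al, min (c v) (ex tl hd D v W) +
          ∑ v ∈ (Z \ Al) \ hat S Al X, min (c v) (ex tl hd D v W)) := by
      rw [← sum_union d2, ← sum_union d1, ← e, mval]
    rw [h4]
    refine add_le_add (sum_le_sum fun v hv => min_le_min le_rfl ?_) (le_trans ?_ h3)
    · exact ex_some (mem_hat.1 hv).1.2 hout
    · exact add_le_add (sum_le_sum fun v _ => min_le_right _ _)
        (sum_le_sum fun v _ => min_le_left _ _)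
  · rw [if_neg hn, add_zero]
    refine (pp_le hT hat_meet).trans ((hA _ hs (hX.resolve_left hn)).trans ?_)
    exact sum_le_sum fun v hv => min_le_min le_rfl (ex_some (mem_hat.1 hv).1.2 (out_hat hD hn))

lemma pp_super (X Y : Finset (Option V)) :
    pp Z Al pos T X + pp Z Al pos T Y ≤ pp Z Al pos T (X ∩ Y) + pp Z Al pos T (X ∪ Y) := by
  simp only [pp, card_filter, ← sum_add_distrib]
  refine sum_le_sum fun t _ => ?_
  by_cases h1 : Disjoint X (UU Z Al (pos t)) <;> by_cases h2 : Disjoint Y (UU Z Al (pos t))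
  · rw [if_pos h1, if_pos h2, if_pos (h1.mono_left inter_subset_left),
      if_pos (disjoint_union_left.2 ⟨h1, h2⟩)]
  · rw [if_pos h1, if_neg h2, if_pos (h1.mono_left inter_subset_left)]
    omega
  · rw [if_neg h1, if_pos h2, if_pos (h2.mono_left inter_subset_right)]
    omega
  · rw [if_neg h1, if_neg h2]
    omega

lemma pp_anti (X Y : Finset (Option V)) (h : X ⊆ Y) : pp Z Al pos T Y ≤ pp Z Al pos T X :=
  card_le_card fun _ ht => mem_filter.2 ⟨(mem_filter.1 ht).1, (mem_filter.1 ht).2.mono_left h⟩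

lemma pp_erase [DecidableEq ι] {t : ι} (ht : t ∈ T) (X : Finset (Option V)) :
    pp Z Al pos (T.erase t) X + (if Disjoint X (UU Z Al (pos t)) then 1 else 0) =
      pp Z Al pos T X := by
  simp only [pp, card_filter]
  exact sum_erase_add _ _ ht

lemma ex_sdiff {N β : Type} [DecidableEq N] [DecidableEq β] (tl' hd' : β → N) (A B : Finset β)
    (x : N) (Y : Finset N) : ex tl' hd' A x Y ≤ ex tl' hd' (A \ B) x Y + cnt B tl' x := by
  refine le_trans (card_le_card fun a ha => ?_) (card_union_le _ _)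
  rw [mem_filter] at ha
  by_cases h : a ∈ B
  · exact mem_union_right _ (mem_filter.2 ⟨h, ha.2.1⟩)
  · exact mem_union_left _ (mem_filter.2 ⟨mem_sdiff.2 ⟨ha.1, h⟩, ha.2⟩)

lemma peb [Fintype V] [DecidableEq α] [DecidableEq ι] [DecidableEq κ] (hel : ELStmt)
    {Pb : Finset κ} {og : κ → V} {tg : κ → ι} {M : ℕ} (hD : ∀ a ∈ D, tl a ∈ S ∧ hd a ∈ S)
    (hP : ∀ p ∈ Pb, og p ∈ S ∧ og p ∉ Al ∧ tg p ∈ T)
    (hi : ∀ p ∈ Pb, ∀ p' ∈ Pb, tg p = tg p' → p = p')
    (hr : ∀ v ∈ S, (1 ≤ c v ∨ ∃ p ∈ Pb, og p = v) → ∀ X, X ⊆ S → X.card < θ →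
      2 * c v + Pb.card < ex tl hd D v X)
    (hb : ∀ X, Lg S Al θ X → pp Z Al pos T X ≤
      mval (ac S Al c M) (atl Al tl) (ahd Al hd) (arcs tl hd D Z Al c) X)
    (Q : Finset κ) (hQ : Q ⊆ Pb) :
    ∃ (F : κ → Finset (α ⊕ V × ℕ)) (B : Finset (α ⊕ V × ℕ)),
      (∀ p ∈ Q, F p ⊆ arcs tl hd D Z Al c ∧ F p ⊆ B ∧ ∃ y ∈ UU Z Al (pos (tg p)),
        NR (atl Al tl) (ahd Al hd) (fun b => b ∈ F p) (some (og p)) y) ∧
      (∀ p ∈ Q, ∀ p' ∈ Q, p ≠ p' → Disjoint (F p) (F p')) ∧
      (∀ x, cnt B (atl Al tl) x ≤ Q.card) ∧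
      ∀ X, Lg S Al θ X → pp Z Al pos (T \ Q.image tg) X ≤
        mval (ac S Al c M) (atl Al tl) (ahd Al hd) (arcs tl hd D Z Al c \ B) X := by
  induction Q using Finset.induction_on with
  | empty => exact ⟨fun _ => ∅, ∅, by simp, by simp, by simp [cnt], by simpa using hb⟩
  | insert q Q hq ih =>
    obtain ⟨F, B, h1, h2, h3, h4⟩ := ih ((subset_insert _ _).trans hQ)
    have hqP : q ∈ Pb := hQ (mem_insert_self _ _)
    have ht : tg q ∈ T \ Q.image tg := by
      refine mem_sdiff.2 ⟨(hP q hqP).2.2, fun h => ?_⟩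
      obtain ⟨p, hp, e⟩ := mem_image.1 h
      exact hq (hi p (hQ (mem_insert_of_mem hp)) q hqP e ▸ hp)
    obtain ⟨G, g1, g2, g3, g4⟩ := hel (Option V) (α ⊕ V × ℕ) (atl Al tl) (ahd Al hd)
      (arcs tl hd D Z Al c \ B) (ac S Al c M) (Lg S Al θ)
      (pp Z Al pos ((T \ Q.image tg).erase (tg q))) (UU Z Al (pos (tg q))) (some (og q))
      (Or.inl (mem_univ _))
      (fun X Y hXY hX => hX.imp (fun h => hXY h) fun h => h.trans (card_le_card fun v hv =>
        mem_hat.2 ⟨(mem_hat.1 hv).1, hXY (mem_hat.1 hv).2⟩))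
      pp_super pp_anti
      (fun x hx Y hxY hY => by
        have hn : none ∉ Y := fun h => hY (Or.inl h)
        have hc : (hat S Al Y).card < θ := not_le.1 fun h => hY (Or.inr h)
        rcases x with _ | v
        · exact absurd hxY hn
        have hv : (v ∈ S ∧ v ∉ Al) ∧ (1 ≤ c v ∨ ∃ p ∈ Pb, og p = v) := by
          rcases hx with hx | hx
          · rw [ac] at hx
            split_ifs at hx with h
            · exact ⟨mem_sdiff.1 h, Or.inl hx⟩
            · omega
          · obtain rfl := Option.some.inj hx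
            exact ⟨⟨(hP q hqP).1, (hP q hqP).2.1⟩, Or.inr ⟨q, hqP, rfl⟩⟩
        have k1 := hr v hv.1.1 hv.2 _ (fun w hw => (mem_hat.1 hw).1.1) hc
        have k2 := ex_some (tl := tl) (Z := Z) (c := c) hv.1.2 (out_hat (Al := Al) hD hn)
        have k3 := ex_sdiff (atl Al tl) (ahd Al hd) (arcs tl hd D Z Al c) B (some v) Y
        have k4 := h3 (some v)
        have k5 := card_le_card ((subset_insert _ _).trans hQ)
        rw [ac, if_pos (mem_sdiff.2 hv.1)]
        omega)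
      fun X hX => (pp_erase ht X).le.trans (h4 X hX)
    have hne : ∀ p ∈ Q, p ≠ q := fun p hp e => hq (e ▸ hp)
    have hdj : ∀ p ∈ Q, Disjoint G (F p) := fun p hp =>
      disjoint_left.2 fun b hb hb' => (mem_sdiff.1 (g1 hb)).2 ((h1 p hp).2.1 hb')
    refine ⟨Function.update F q G, B ∪ G, fun p hp => ?_, fun p hp p' hp' hpp => ?_,
      fun x => ?_, fun X hX => ?_⟩
    · rcases mem_insert.1 hp with rfl | hp
      · rw [Function.update_self]
        exact ⟨g1.trans sdiff_subset, subset_union_right, g2⟩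
      · rw [Function.update_of_ne (hne p hp)]
        exact ⟨(h1 p hp).1, (h1 p hp).2.1.trans subset_union_left, (h1 p hp).2.2⟩
    · rcases mem_insert.1 hp with e | k <;> rcases mem_insert.1 hp' with e' | k'
      · exact absurd (e.trans e'.symm) hpp
      · rw [e, Function.update_self, Function.update_of_ne (hne p' k')]
        exact hdj p' k'
      · rw [e', Function.update_self, Function.update_of_ne (hne p k)]
        exact (hdj p k).symm
      · rw [Function.update_of_ne (hne p k), Function.update_of_ne (hne p' k')]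
        exact h2 p k p' k' hpp
    · rw [card_insert_of_notMem hq, cnt, filter_union]
      exact (card_union_le _ _).trans (add_le_add (h3 x) (g3 x))
    · have e : arcs tl hd D Z Al c \ (B ∪ G) = (arcs tl hd D Z Al c \ B) \ G := by
        ext b
        simp only [mem_sdiff, mem_union]
        tauto
      rw [image_insert, sdiff_insert, e]
      exact g4 X hX

/-- a lane out of the contracted node -/
lemma lane {L : α ⊕ V × ℕ → Prop} {y : Option V} (h : NR (atl Al tl) (ahd Al hd) L none y) :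
    ∀ x, y = some x → ∃ b, L b ∧ atl Al tl b = none ∧
      NR tl hd (fun a => L (inl a)) (st tl b) x := by
  induction h with
  | refl => exact fun x hx => absurd hx (by simp)
  | @tail y0 y1 _ h ih =>
    obtain ⟨e, he, h1, h2⟩ := h
    rintro x rfl
    rcases y0 with _ | x0
    · refine ⟨e, he, h1, ?_⟩
      rcases e with a | w
      · exact Relation.ReflTransGen.single ⟨a, he, rfl, pr_some h2⟩
      · obtain rfl := Option.some.inj h2
        exact Relation.ReflTransGen.refl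
    · obtain ⟨b, k1, k2, k3⟩ := ih x0 rfl
      rcases e with a | w
      · exact ⟨b, k1, k2, k3.tail ⟨a, he, pr_some h1, pr_some h2⟩⟩
      · exact absurd h1 (by simp [atl])

/-- the walk of a pebble up to the contracted node -/
lemma real {L : α ⊕ V × ℕ → Prop} {u : V} (hu : u ∉ Al) {y : Option V}
    (h : NR (atl Al tl) (ahd Al hd) (fun b => L b ∧ atl Al tl b ≠ none) (some u) y) :
    ∃ x, pr Al x = y ∧ NR tl hd (fun a => L (inl a) ∧ (NR (atl Al tl) (ahd Al hd)
      (fun b => L b ∧ atl Al tl b ≠ none) (some u) (atl Al tl (inl a)) ∧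
        atl Al tl (inl a) ≠ none)) u x := by
  induction h with
  | refl => exact ⟨u, pr_of hu, Relation.ReflTransGen.refl⟩
  | @tail y0 y1 h0 h ih =>
    obtain ⟨e, ⟨he, hn⟩, h1, h2⟩ := h
    obtain ⟨x, k1, k2⟩ := ih
    rcases e with a | w
    · refine ⟨hd a, h2, k2.tail ⟨a, ⟨he, h1 ▸ h0, hn⟩, ?_, rfl⟩⟩
      rcases y0 with _ | x0
      · exact absurd h1 hn
      · exact (pr_some h1).trans (pr_some k1).symm
    · exact absurd rfl hn

lemma split {N β : Type} {tl' hd' : β → N} {L : β → Prop} {o z y : N} (h : NR tl' hd' L o y) :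
    NR tl' hd' (fun b => L b ∧ tl' b ≠ z) o y ∨ (NR tl' hd' (fun b => L b ∧ tl' b ≠ z) o z ∧
      NR tl' hd' (fun b => L b ∧ ¬(NR tl' hd' (fun b => L b ∧ tl' b ≠ z) o (tl' b) ∧ tl' b ≠ z))
        z y) := by
  induction h with
  | refl => exact Or.inl Relation.ReflTransGen.refl
  | @tail y0 y1 _ h ih =>
    obtain ⟨e, he, rfl, rfl⟩ := h
    by_cases h1 : tl' e = z
    · refine Or.inr ⟨?_, Relation.ReflTransGen.single ⟨e, ⟨he, fun h => h.2 h1⟩, h1, rfl⟩⟩
      rcases ih with h | h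
      · exact h1 ▸ h
      · exact h.1
    · by_cases h2 : NR tl' hd' (fun b => L b ∧ tl' b ≠ z) o (tl' e)
      · exact Or.inl (h2.tail ⟨e, ⟨he, h1⟩, rfl, rfl⟩)
      · obtain ⟨k1, k2⟩ := ih.resolve_left h2
        exact Or.inr ⟨k1, k2.tail ⟨e, ⟨he, fun h => h2 h.1⟩, rfl, rfl⟩⟩

lemma nr_mono {N β : Type} {tl' hd' : β → N} {L L' : β → Prop} (hL : ∀ b, L b → L' b) {x y : N}
    (h : NR tl' hd' L x y) : NR tl' hd' L' x y := by
  induction h with
  | refl => exact Relation.ReflTransGen.refl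
  | tail _ h ih =>
    obtain ⟨e, he, h⟩ := h
    exact ih.tail ⟨e, hL e he, h⟩

lemma nr_swap {N β : Type} {tl' hd' : β → N} {L : β → Prop} {x y : N}
    (h : NR hd' tl' L x y) : NR tl' hd' L y x := by
  induction h with
  | refl => exact Relation.ReflTransGen.refl
  | tail _ h ih =>
    obtain ⟨e, he, h1, h2⟩ := h
    exact Relation.ReflTransGen.head ⟨e, he, h2, h1⟩ ih

lemma mval_le {N β : Type} [DecidableEq N] (c' : N → ℕ) (tl' hd' : β → N) (A : Finset β)
    (X : Finset N) : mval c' tl' hd' A X ≤ (A.filter fun a => hd' a ∉ X ∧ tl' a ∈ X).card := by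
  rw [← filter_filter, ← sum_card_fiberwise_eq_card_filter]
  refine sum_le_sum fun v _ => (min_le_right _ _).trans (le_of_eq ?_)
  rw [filter_filter, ex]
  exact congrArg card (filter_congr fun a _ => and_comm)

lemma toks [Fintype V] [DecidableEq α] (hm : MengerStmt) (hAl : Al ⊆ Z) {c' : Option V → ℕ}
    {A : Finset (α ⊕ V × ℕ)}
    (hb : ∀ X, Lg S Al θ X → pp Z Al pos T X ≤ mval c' (atl Al tl) (ahd Al hd) A X) :
    ∃ P : ι → Finset (α ⊕ V × ℕ), (∀ i ∈ T, pos i ∉ Z → P i ⊆ A ∧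
      NR (atl Al tl) (ahd Al hd) (fun b => b ∈ P i) none (some (pos i))) ∧
      ∀ i ∈ T, pos i ∉ Z → ∀ j ∈ T, pos j ∉ Z → i ≠ j → Disjoint (P i) (P j) := by
  obtain ⟨e, P, h1, h2, h3⟩ := hm (Option V) (α ⊕ V × ℕ) ι (ahd Al hd) (atl Al tl) A
    (T.filter fun i => pos i ∉ Z) (fun i => some (pos i))
    (fun x => if x = none then T.card else 0) fun U => by
      by_cases hn : none ∈ U
      · rw [sum_ite_eq', if_pos hn]
        exact le_add_left ((card_filter_le _ _).trans (card_filter_le _ _))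
      · refine le_add_right (le_trans ?_ ((hb Uᶜ (Or.inl (mem_compl.2 hn))).trans
          ((mval_le _ _ _ _ _).trans (card_le_card fun a ha => by simpa using ha))))
        refine card_le_card fun t ht => ?_
        simp only [mem_filter] at ht ⊢
        refine ⟨ht.1.1, ?_⟩
        simp [UU, ht.1.2, ht.2]
  refine ⟨P, fun i hi hz => ?_, fun i hi hz j hj hz' => h2 i (mem_filter.2 ⟨hi, hz⟩) j
    (mem_filter.2 ⟨hj, hz'⟩)⟩
  have hi' : i ∈ T.filter fun i => pos i ∉ Z := mem_filter.2 ⟨hi, hz⟩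
  obtain ⟨k1, k2, -⟩ := h1 i hi'
  have k3 : e i = none := by
    by_contra h
    have := h3 (e i)
    rw [if_neg h, cnt, Nat.le_zero, card_eq_zero] at this
    exact notMem_empty i (this ▸ mem_filter.2 ⟨hi', rfl⟩)
  exact ⟨k1, nr_swap (k3 ▸ k2)⟩

lemma first_le (hAl : Al ⊆ Z) {I : Finset ι} {b : ι → α ⊕ V × ℕ} (v : V)
    (h1 : ∀ i ∈ I, b i ∈ arcs tl hd D Z Al c ∧ atl Al tl (b i) = none ∧ st tl (b i) = v)
    (h2 : Set.InjOn b I) : I.card ≤ if v ∈ Al then ex tl hd D v Z else c v := by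
  classical
  split_ifs with hv
  · refine le_trans (card_le_card_of_injOn b (fun i hi => ?_) h2) (card_image_le (f := inl))
    obtain ⟨k1, -, k3⟩ := h1 i hi
    rcases hb : b i with a | x <;> rw [hb] at k1 k3
    · obtain rfl : tl a = v := k3
      exact mem_coe.2 (mem_image_of_mem _ (mem_filter.2 ⟨(inl_arcs.1 k1).1, rfl,
        (inl_arcs.1 k1).2.resolve_left (not_not.2 hv)⟩))
    · obtain rfl : x.1 = v := k3
      exact absurd hv (inr_arcs.1 k1).1.2
  · rw [← card_range (c v)]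
    refine le_trans (card_le_card_of_injOn b (fun i hi => ?_) h2)
      (card_image_le (f := fun j => inr (v, j)))
    obtain ⟨k1, k2, k3⟩ := h1 i hi
    rcases hb : b i with a | x <;> rw [hb] at k1 k2 k3
    · obtain rfl : tl a = v := k3
      exact absurd (pr_none.1 k2) hv
    · obtain rfl : x.1 = v := k3
      exact mem_coe.2 (mem_image.2 ⟨x.2, mem_range.2 (inr_arcs.1 k1).2, rfl⟩)

lemma st_mem (hAl : Al ⊆ Z) {b : α ⊕ V × ℕ} (h1 : b ∈ arcs tl hd D Z Al c)
    (h2 : atl Al tl b = none) : st tl b ∈ Z := by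
  rcases b with a | x
  · exact hAl (pr_none.1 h2)
  · exact (inr_arcs.1 h1).1.1

lemma own {β O : Type} (G : O → β → Prop) (h : ∀ o o' b, G o b → G o' b → o = o') :
    ∃ ow : β → Option O, ∀ o b, G o b → ow b = some o := by
  classical
  refine ⟨fun b => if h : ∃ o, G o b then some h.choose else none, fun o b hb => ?_⟩
  have h' : ∃ o, G o b := ⟨o, hb⟩
  simp only [dif_pos h']
  rw [h _ _ b h'.choose_spec hb]

end PD

open PD in
theorem pdive : MengerStmt → ELStmt → PDiveStmt := by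
  classical
  intro hm hel V α ι κ _ _ _ _ _ tl hd D S Z Al c θ T pos Pb og tg hAl hZ hθ hD hT hP hi hr hA
  obtain ⟨F, B, h1, h2, -, h4⟩ := peb hel hD hP hi hr (base hAl hZ hθ hD hT hA) Pb Subset.rfl
  obtain ⟨P, p1, p2⟩ := toks hm hAl h4
  choose! y hy1 hy2 using fun p hp => (h1 p hp).2.2
  have uF : ∀ p ∈ Pb, ∀ p' ∈ Pb, ∀ b, b ∈ F p → b ∈ F p' → p = p' := fun p hp p' hp' b k k' => by
    by_contra hn
    exact disjoint_left.1 (h2 p hp p' hp' hn) k k'
  let R : κ → Option V → Prop := fun p =>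
    NR (atl Al tl) (ahd Al hd) (fun b => b ∈ F p ∧ atl Al tl b ≠ none) (some (og p))
  let G : κ ⊕ ι → α ⊕ V × ℕ → Prop := fun o b => match o with
    | inl p => p ∈ Pb ∧ b ∈ F p ∧ (R p (atl Al tl b) ∧ atl Al tl b ≠ none)
    | inr i => (∃ p ∈ Pb, tg p = i ∧ b ∈ F p ∧ ¬(R p (atl Al tl b) ∧ atl Al tl b ≠ none)) ∨
        (i ∈ T \ Pb.image tg ∧ pos i ∉ Z ∧ b ∈ P i)
  have nP : ∀ p ∈ Pb, ∀ i ∈ T \ Pb.image tg, pos i ∉ Z → ∀ b ∈ F p, b ∉ P i :=
    fun p hp i hi hz b k k' => (mem_sdiff.1 ((p1 i hi hz).1 k')).2 ((h1 p hp).2.1 k)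
  have mix : ∀ p i b, G (inl p) b → ¬G (inr i) b := by
    rintro p i b ⟨k1, k2, k3⟩ (⟨p', j1, -, j2, j3⟩ | ⟨j1, j2, j3⟩)
    · obtain rfl := uF p k1 p' j1 b k2 j2
      exact j3 k3
    · exact nP p k1 i j1 j2 b k2 j3
  have uG : ∀ o o' b, G o b → G o' b → o = o' := by
    rintro (p | i) (p' | i') b k k'
    · rw [uF p k.1 p' k'.1 b k.2.1 k'.2.1]
    · exact absurd k' (mix _ _ _ k)
    · exact absurd k (mix _ _ _ k')
    · rcases k with ⟨p, k1, rfl, k2, -⟩ | ⟨k1, k2, k3⟩ <;>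
        rcases k' with ⟨p', j1, rfl, j2, -⟩ | ⟨j1, j2, j3⟩
      · rw [uF p k1 p' j1 b k2 j2]
      · exact absurd j3 (nP p k1 _ j1 j2 b k2)
      · exact absurd k3 (nP p' j1 _ k1 k2 b j2)
      · by_contra hn
        exact disjoint_left.1 (p2 i k1 k2 i' j1 j2 fun e => hn (by rw [e])) k3 j3
  have aG : ∀ o b, G o b → b ∈ arcs tl hd D Z Al c := by
    rintro (p | i) b k
    · exact (h1 p k.1).1 k.2.1
    · rcases k with ⟨p, k1, -, k2, -⟩ | ⟨k1, k2, k3⟩
      · exact (h1 p k1).1 k2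
      · exact (mem_sdiff.1 ((p1 i k1 k2).1 k3)).1
  obtain ⟨ow, how⟩ := own G uG
  have conv : ∀ o x x', NR tl hd (fun a => G o (inl a)) x x' →
      NR tl hd (fun a => a ∈ D ∧ (tl a ∉ Al ∨ hd a ∉ Z) ∧ ow (inl a) = some o) x x' :=
    fun o x x' => nr_mono fun a k =>
      ⟨(inl_arcs.1 (aG o _ k)).1, (inl_arcs.1 (aG o _ k)).2, how o _ k⟩
  let Hj : Finset κ := Pb.filter fun p => y p ≠ none ∧ R p (y p)
  have hen : ∀ p, ∃ x, p ∈ Pb → NR tl hd (fun a => G (inl p) (inl a)) (og p) x ∧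
      (p ∈ Hj → x = pos (tg p)) ∧ (p ∉ Hj → x ∈ Al) := fun p => by
    by_cases hp : p ∈ Pb
    swap
    · exact ⟨og p, fun h => absurd h hp⟩
    by_cases hj : p ∈ Hj
    · obtain ⟨-, k1, k2⟩ := mem_filter.1 hj
      obtain ⟨x, j1, j2⟩ := real (hP p hp).2.1 k2
      refine ⟨x, fun _ => ⟨nr_mono (fun a k => ⟨hp, k⟩) j2, fun _ => ?_, fun h => absurd hj h⟩⟩
      have j3 := hy1 p hp
      rcases hy : y p with _ | x'
      · exact absurd hy k1
      rw [hy] at j1 j3
      rw [pr_some j1]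
      unfold UU at j3
      split_ifs at j3
      · exact (pr_some ((mem_singleton.1 ((mem_insert.1 j3).resolve_left (by simp))).symm)).symm
      · exact Option.some.inj (mem_singleton.1 j3)
    · have k : R p none := by
        rcases split (z := none) (hy2 p hp) with k | k
        · by_cases e : y p = none
          · exact e ▸ k
          · exact absurd (mem_filter.2 ⟨hp, e, k⟩) hj
        · exact k.1
      obtain ⟨x, j1, j2⟩ := real (hP p hp).2.1 k
      exact ⟨x, fun _ => ⟨nr_mono (fun a k => ⟨hp, k⟩) j2, fun h => absurd h hj,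
        fun _ => pr_none.1 j1⟩⟩
  choose en hen using hen
  have hb : ∀ i, ∃ b, i ∈ T → i ∉ Hj.image tg → pos i ∉ Z → G (inr i) b ∧ atl Al tl b = none ∧
      NR tl hd (fun a => G (inr i) (inl a)) (st tl b) (pos i) := fun i => by
    by_cases k : i ∈ T ∧ i ∉ Hj.image tg ∧ pos i ∉ Z
    swap
    · exact ⟨inr (pos i, 0), fun k1 k2 k3 => absurd ⟨k1, k2, k3⟩ k⟩
    obtain ⟨k1, k2, k3⟩ := k
    have k4 : NR (atl Al tl) (ahd Al hd) (G (inr i)) none (some (pos i)) := by
      by_cases k5 : i ∈ Pb.image tg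
      · obtain ⟨p, hp, rfl⟩ := mem_image.1 k5
        have e : y p = some (pos (tg p)) := by simpa [UU, k3] using hy1 p hp
        rcases split (z := none) (hy2 p hp) with k | k
        · exact absurd (mem_image_of_mem _ (mem_filter.2 ⟨hp, by simp [e], k⟩)) k2
        · exact nr_mono (fun b j => Or.inl ⟨p, hp, rfl, j⟩) (e ▸ k.2)
      · exact nr_mono (fun b j => Or.inr ⟨mem_sdiff.2 ⟨k1, k5⟩, k3, j⟩)
          (p1 i (mem_sdiff.2 ⟨k1, k5⟩) k3).2
    obtain ⟨b, hb⟩ := lane k4 _ rfl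
    exact ⟨b, fun _ _ _ => hb⟩
  choose bb hb using hb
  refine ⟨fun a => ow (inl a), en, Hj, fun i => if pos i ∈ Z then pos i else st tl (bb i),
    filter_subset _ _, fun p hp => conv _ _ _ (hen p hp).1,
    fun p hp => (hen p (mem_filter.1 hp).1).2.1 hp, fun p hp => (hen p hp).2.2,
    fun i hi hj => ?_, fun v _ => ?_⟩
  · by_cases hz : pos i ∈ Z
    · simp only [if_pos hz]
      exact ⟨hz, fun _ => trivial, Relation.ReflTransGen.refl⟩
    · simp only [if_neg hz]
      obtain ⟨k1, k2, k3⟩ := hb i hi hj hz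
      exact ⟨st_mem hAl (aG (inr i) _ k1) k2, fun h => absurd h hz, conv _ _ _ k3⟩
  · refine first_le hAl (b := bb) v (fun i hi => ?_) fun i hi j hj e => ?_
    · simp only [mem_filter] at hi
      obtain ⟨⟨k1, k2, k3⟩, k4⟩ := hi
      rw [if_neg k3] at k4
      exact ⟨aG (inr i) _ (hb i k1 k2 k3).1, (hb i k1 k2 k3).2.1, k4⟩
    · simp only [coe_filter, mem_filter, Set.mem_setOf_eq] at hi hj
      exact inr.inj (uG (inr i) (inr j) _ (hb i hi.1.1 hi.1.2.1 hi.1.2.2).1
        (e ▸ (hb j hj.1.1 hj.1.2.1 hj.1.2.2).1))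

end Pool.Agent.MP_b9875a_co.H99.LN
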